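import Pool.Agent.Y471.PPC.Digits

/-!
# Hausdorff dimension of the set of numbers which follow given targets
-/

set_option autoImplicit false
set_option maxHeartbeats 400000

namespace Pool.Agent.Y471.PPC

open Filter Topology Finset
open Pool.Agent.Results.MP_b61c36_nt.PPCCounterexample
open scoped NNReal ENNReal

theorem log_small (δ : ℝ) (hδ : 0 < δ) : ∃ n1 : ℕ, ∀ N, n1 ≤ N → (LL N : ℝ) ≤ δ * N := by
  have h1 := LL_lim.eventually (gt_mem_nhds (show (0 : ℝ) < δ ^ 2 by positivity))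
  obtain ⟨n1, hn1⟩ := eventually_atTop.1 h1
  refine ⟨max n1 1, fun N hN => ?_⟩
  have hN1 : 1 ≤ N := (le_max_right _ _).trans hN
  have hNR : (1 : ℝ) ≤ N := by exact_mod_cast hN1
  have h2 := hn1 N ((le_max_left _ _).trans hN)
  rw [div_lt_iff₀ (by linarith)] at h2
  refine abs_le_of_sq_le_sq' ?_ (by positivity) |>.2
  calc (LL N : ℝ) ^ 2 ≤ δ ^ 2 * N := h2.le
    _ ≤ δ ^ 2 * (N * N) := by
        apply mul_le_mul_of_nonneg_left _ (by positivity)
        exact le_mul_of_one_le_left (by linarith) hNR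
    _ = (δ * N) ^ 2 := by ring

theorem gd_mono {i n : ℕ} (h : i ≤ n) : gd i ≤ gd n := by
  unfold gd
  have := Nat.log_mono_right (b := 2) (show i + 1 ≤ n + 1 by omega)
  omega

theorem FF_lower (n : ℕ) : tt n ≤ FF n + n * (gd n + 1) := by
  have h : ∀ m, m ≤ n → tt m ≤ FF m + m * (gd n + 1) := by
    intro m
    induction m with
    | zero =>
      intro _
      simp [tt]
    | succ m ih =>
      intro hm
      have h1 := ih (by omega)
      have h2 := gd_fd m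
      have h3 := gd_mono (show m ≤ n by omega)
      rw [tt_succ, FF_succ]
      nlinarith
  exact h n le_rfl

theorem gd_LL (n : ℕ) : gd n + 1 = 4 * LL (n + 1) + 2 := by
  unfold gd LL
  ring

theorem FF_large (η : ℝ) (hη : 0 < η) (hη1 : η ≤ 1) :
    ∃ n2 : ℕ, ∀ n, n2 ≤ n → (1 - η) * tt (n + 1) ≤ FF n := by
  obtain ⟨n1, hn1⟩ := log_small (η / 4) (by positivity)
  obtain ⟨n3, hn3⟩ := exists_nat_ge (10 / η)
  refine ⟨max n1 n3, fun n hn => ?_⟩
  have h1 := hn1 (n + 1) (by have := (le_max_left n1 n3).trans hn; omega)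
  have h2 : (10 / η : ℝ) ≤ n := hn3.trans (by exact_mod_cast (le_max_right n1 n3).trans hn)
  have h3 : (tt n : ℝ) ≤ FF n + n * (4 * LL (n + 1) + 2) := by
    have := FF_lower n
    rw [gd_LL] at this
    exact_mod_cast this
  have h4 : (tt n : ℝ) = 5 * n * (n + 1) := by unfold tt; push_cast; ring
  have h5 : (tt (n + 1) : ℝ) = 5 * (n + 1) * (n + 2) := by unfold tt; push_cast; ring
  rw [div_le_iff₀ hη] at h2
  rw [h4] at h3
  rw [h5]
  push_cast at h1
  have hn0 : (0 : ℝ) ≤ n := Nat.cast_nonneg n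
  have h6 : (n : ℝ) * (4 * LL (n + 1) + 2) ≤ n * (η * (n + 1) + 2) := by
    apply mul_le_mul_of_nonneg_left _ hn0
    linarith
  have h7 : 5 * (n : ℝ) * (n + 1) - n * (η * (n + 1) + 2) ≤ FF n := by linarith
  refine le_trans ?_ h7
  have hn1' : (10 : ℝ) ≤ n := by nlinarith
  nlinarith [mul_nonneg hn0 hη.le, mul_le_mul_of_nonneg_left h2 hn0]

theorem FF_unbounded (m : ℕ) : ∃ n, m ≤ FF n := by
  obtain ⟨n2, hn2⟩ := FF_large (1 / 2) (by norm_num) (by norm_num)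
  refine ⟨max n2 (2 * m), ?_⟩
  have h := hn2 (max n2 (2 * m)) (le_max_left _ _)
  have h5 : (tt (max n2 (2 * m) + 1) : ℝ) ≥ 2 * m := by
    have : 2 * m ≤ tt (max n2 (2 * m) + 1) := by
      have h1 : 2 * m ≤ max n2 (2 * m) := le_max_right _ _
      unfold tt
      nlinarith
    exact_mod_cast this
  have : (m : ℝ) ≤ FF (max n2 (2 * m)) := by linarith
  exact_mod_cast this

/-- the inverse of the coding is Hölder continuous -/
theorem holder (v : ℕ → ℝ) (r : ℝ) (hr0 : 0 < r) (hr : r < 1) : ∃ C : ℝ, 0 ≤ C ∧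
    ∀ x ∈ Set.Ico (0 : ℝ) 1, ∀ x' ∈ Set.Ico (0 : ℝ) 1, |x - x'| ≤ C * |GG' v x - GG' v x'| ^ r := by
  obtain ⟨n2, hn2⟩ := FF_large (1 - r) (by linarith) (by linarith)
  have hc : ∀ n, r * tt (n + 1) ≤ FF n + tt (n2 + 1) := by
    intro n
    rcases le_total n2 n with h | h
    · have := hn2 n h
      have h1 : (0 : ℝ) ≤ tt (n2 + 1) := Nat.cast_nonneg _
      have h2 : (1 - (1 - r)) = r := by ring
      rw [h2] at this
      linarith
    · have h1 : (tt (n + 1) : ℝ) ≤ tt (n2 + 1) := by exact_mod_cast tt_mono (by omega)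
      have h2 : (0 : ℝ) ≤ FF n := Nat.cast_nonneg _
      have h3 : (0 : ℝ) ≤ tt (n + 1) := Nat.cast_nonneg _
      nlinarith
  refine ⟨2 ^ tt (n2 + 1), by positivity, fun x hx x' hx' => ?_⟩
  rcases eq_or_ne x x' with h | hne
  · rw [h, sub_self, abs_zero]
    positivity
  obtain ⟨n, h1, h2⟩ := anti_holder v FF_unbounded x x' hx hx' hne
  refine h1.trans ?_
  have h3 : ((1 / 2 : ℝ) ^ tt (n + 1)) ^ r ≤ |GG' v x - GG' v x'| ^ r :=
    Real.rpow_le_rpow (by positivity) h2 hr0.le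
  refine le_trans ?_ (mul_le_mul_of_nonneg_left h3 (by positivity))
  have e1 : ((1 / 2 : ℝ) ^ tt (n + 1)) ^ r = (2 : ℝ) ^ (-(r * tt (n + 1))) := by
    rw [one_div_pow, one_div, ← Real.rpow_natCast, ← Real.rpow_neg (by norm_num),
      ← Real.rpow_mul (by norm_num)]
    congr 1
    ring
  have e2 : (1 / 2 : ℝ) ^ FF n = (2 : ℝ) ^ (-(FF n : ℝ)) := by
    rw [one_div_pow, one_div, ← Real.rpow_natCast, ← Real.rpow_neg (by norm_num)]
  have e3 : (2 : ℝ) ^ tt (n2 + 1) = (2 : ℝ) ^ ((tt (n2 + 1) : ℕ) : ℝ) := (Real.rpow_natCast _ _).symm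
  rw [e1, e2, e3, ← Real.rpow_add (by norm_num)]
  apply Real.rpow_le_rpow_of_exponent_le (by norm_num)
  have := hc n
  linarith

theorem dim_ge (v : ℕ → ℝ) (r : ℝ≥0) (hr0 : 0 < r) (hr : r < 1) : (r : ℝ≥0∞) ≤ dimH (Foll v) := by
  obtain ⟨C, hC, hC2⟩ := holder v r (by exact_mod_cast hr0) (by exact_mod_cast hr)
  set S : Set ℝ := GG' v '' Set.Ico (0 : ℝ) 1 with hS
  have hS1 : S ⊆ Foll v := by
    rintro _ ⟨x, _, rfl⟩
    exact GG'_mem v x
  have hinj : Set.InjOn (GG' v) (Set.Ico (0 : ℝ) 1) := by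
    intro x hx x' hx' h
    have := hC2 x hx x' hx'
    rw [h, sub_self, abs_zero, Real.zero_rpow (by exact_mod_cast hr0.ne'), mul_zero] at this
    exact sub_eq_zero.1 (abs_eq_zero.1 (le_antisymm this (abs_nonneg _)))
  let g : ℝ → ℝ := Function.invFunOn (GG' v) (Set.Ico (0 : ℝ) 1)
  have hg1 : ∀ a ∈ S, g a ∈ Set.Ico (0 : ℝ) 1 ∧ GG' v (g a) = a := fun a ha =>
    ⟨Function.invFunOn_mem ha, Function.invFunOn_eq ha⟩
  have hg2 : Set.Ico (0 : ℝ) 1 ⊆ g '' S := by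
    intro x hx
    refine ⟨GG' v x, ⟨x, hx, rfl⟩, ?_⟩
    obtain ⟨h1, h2⟩ := hg1 (GG' v x) ⟨x, hx, rfl⟩
    exact hinj h1 hx h2
  have hH : HolderOnWith C.toNNReal r g S := by
    intro a ha b hb
    obtain ⟨h1, h2⟩ := hg1 a ha
    obtain ⟨h3, h4⟩ := hg1 b hb
    have h5 := hC2 _ h1 _ h3
    rw [h2, h4] at h5
    rw [edist_dist, edist_dist, Real.dist_eq, Real.dist_eq]
    have e : ((C.toNNReal : ℝ≥0) : ℝ≥0∞) = ENNReal.ofReal C := rfl
    rw [e, ENNReal.ofReal_rpow_of_nonneg (abs_nonneg _) (by positivity), ← ENNReal.ofReal_mul hC]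
    exact ENNReal.ofReal_le_ofReal h5
  have h1 := hH.dimH_image_le hr0
  have h2 : dimH (Set.Ico (0 : ℝ) 1) = 1 := by
    have h3 : (interior (Set.Ico (0 : ℝ) 1)).Nonempty := by
      rw [interior_Ico]
      exact ⟨1 / 2, by norm_num, by norm_num⟩
    rw [Real.dimH_of_nonempty_interior h3]
    simp
  have h3 : (1 : ℝ≥0∞) ≤ dimH S / r := by
    rw [← h2]
    exact (dimH_mono hg2).trans h1
  have h4 : (r : ℝ≥0∞) ≤ dimH S := by
    rw [ENNReal.le_div_iff_mul_le (Or.inl (by exact_mod_cast hr0.ne')) (Or.inl ENNReal.coe_ne_top),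
      one_mul] at h3
    exact h3
  exact h4.trans (dimH_mono hS1)

theorem one_le_dim (v : ℕ → ℝ) : 1 ≤ dimH (Foll v) := by
  apply le_of_forall_lt
  intro c hc
  obtain ⟨r, hr1, hr2⟩ := ENNReal.lt_iff_exists_nnreal_btwn.1 hc
  rcases eq_or_ne r 0 with h | h
  · rw [h] at hr1
    simp at hr1
  · exact hr1.trans_le (dim_ge v r (pos_iff_ne_zero.2 h) (by exact_mod_cast hr2))

/-! ### Localisation -/

theorem nd_add_int (y : ℝ) (m : ℤ) : nd (y + m) = nd y := by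
  unfold nd
  rw [round_add_intCast]
  congr 1
  push_cast
  ring

theorem translate (v : ℕ → ℝ) (j : ℕ) (m : ℤ) (α : ℝ) :
    α + m / 2 ^ j ∈ Foll v ↔ α ∈ Foll v := by
  have key : ∀ᶠ n : ℕ in atTop, nd ((2 : ℝ) ^ tt n * (α + m / 2 ^ j) - v n) =
      nd ((2 : ℝ) ^ tt n * α - v n) := by
    filter_upwards [eventually_ge_atTop j] with n hn
    have h1 : j ≤ tt n := by
      unfold tt
      nlinarith
    have h2 : (2 : ℝ) ^ tt n * (α + m / 2 ^ j) - v n =
        ((2 : ℝ) ^ tt n * α - v n) + ((m * 2 ^ (tt n - j) : ℤ) : ℝ) := by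
      have h3 : (2 : ℝ) ^ tt n = 2 ^ (tt n - j) * 2 ^ j := by
        rw [← pow_add]; congr 1; omega
      push_cast
      rw [mul_add, h3]
      field_simp
      ring
    rw [h2, nd_add_int]
  constructor
  · intro h
    filter_upwards [h, key] with n h1 h2
    rwa [h2] at h1
  · intro h
    filter_upwards [h, key] with n h1 h2
    rwa [h2]

theorem dim_cell (v : ℕ → ℝ) (j : ℕ) (m : ℤ) :
    1 ≤ dimH (Foll v ∩ Set.Ico ((m : ℝ) / 2 ^ j) ((m + 1 : ℝ) / 2 ^ j)) := by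
  set J : ℤ → Set ℝ := fun m => Foll v ∩ Set.Ico ((m : ℝ) / 2 ^ j) ((m + 1 : ℝ) / 2 ^ j) with hJ
  have hp : (0 : ℝ) < 2 ^ j := by positivity
  have htr : ∀ m m' : ℤ, dimH (J m) ≤ dimH (J m') := by
    intro m m'
    have h1 : J m ⊆ (fun x : ℝ => ((m - m' : ℤ) : ℝ) / 2 ^ j + x) '' J m' := by
      rintro α ⟨h2, h3, h4⟩
      refine ⟨α + ((m' - m : ℤ) : ℝ) / 2 ^ j, ⟨(translate v j _ α).2 h2, ?_, ?_⟩, ?_⟩
      · push_cast
        rw [div_le_iff₀ hp] at h3 ⊢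
        rw [add_mul, div_mul_cancel₀ _ hp.ne']
        linarith
      · push_cast
        rw [lt_div_iff₀ hp] at h4 ⊢
        rw [add_mul, div_mul_cancel₀ _ hp.ne']
        linarith
      · push_cast
        ring
    refine (dimH_mono h1).trans (le_of_eq ?_)
    exact (isometry_add_left (((m - m' : ℤ) : ℝ) / 2 ^ j)).dimH_image _
  have hcov : Foll v ⊆ ⋃ m : ℤ, J m := by
    intro α hα
    rw [Set.mem_iUnion]
    refine ⟨⌊α * 2 ^ j⌋, hα, ?_, ?_⟩
    · rw [div_le_iff₀ hp]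
      exact Int.floor_le _
    · rw [lt_div_iff₀ hp]
      exact Int.lt_floor_add_one _
  have h1 := (one_le_dim v).trans (dimH_mono hcov)
  rw [dimH_iUnion] at h1
  exact h1.trans (iSup_le fun m' => htr m' m)

/-- full Hausdorff dimension in every interval -/
theorem dim_interval (v : ℕ → ℝ) (a b : ℝ) (hab : a < b) : 1 ≤ dimH (Foll v ∩ Set.Ioo a b) := by
  obtain ⟨j, hj⟩ := exists_pow_lt_of_lt_one (show 0 < (b - a) / 2 by linarith)
    (by norm_num : (1 / 2 : ℝ) < 1)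
  have hp : (0 : ℝ) < 2 ^ j := by positivity
  rw [one_div_pow, div_lt_iff₀ hp] at hj
  set m : ℤ := ⌊a * 2 ^ j⌋ + 1 with hm
  have h1 : a * 2 ^ j < m := by
    rw [hm]
    push_cast
    exact Int.lt_floor_add_one _
  have h2 : (m : ℝ) ≤ a * 2 ^ j + 1 := by
    rw [hm]
    push_cast
    have := Int.floor_le (a * 2 ^ j)
    linarith
  refine (dim_cell v j m).trans (dimH_mono ?_)
  rintro α ⟨h3, h4, h5⟩
  refine ⟨h3, ?_, ?_⟩
  · rw [div_le_iff₀ hp] at h4
    exact lt_of_mul_lt_mul_right (h1.trans_le h4) hp.le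
  · rw [lt_div_iff₀ hp] at h5
    have h6 : α * 2 ^ j < b * 2 ^ j := by nlinarith
    exact lt_of_mul_lt_mul_right h6 hp.le

end Pool.Agent.Y471.PPC
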