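import Pool.Agent.Y471.PPC.Robust

/-!
# The numbers which follow given targets have full Hausdorff dimension
-/

set_option autoImplicit false
set_option maxHeartbeats 400000

namespace Pool.Agent.Y471.PPC

open Filter Topology Finset
open Pool.Agent.Results.MP_b61c36_nt.PPCCounterexample

/-- number of prescribed leading digits of block `n` -/
def gd (n : ℕ) : ℕ := 8 * (Nat.log 2 (n + 1) + 1) + 1

/-- number of free digits of block `n` -/
def fd (n : ℕ) : ℕ := ell n - 1 - gd n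

theorem gd_fd (n : ℕ) : gd n + fd n + 1 = ell n := by
  have h : Nat.log 2 (n + 1) < n + 1 := Nat.log_lt_self 2 (by omega)
  unfold fd gd ell
  omega

/-- number of free digits before block `n` -/
def FF (n : ℕ) : ℕ := ∑ i ∈ range n, fd i

theorem FF_succ (n : ℕ) : FF (n + 1) = FF n + fd n := Finset.sum_range_succ _ _

/-- partial sums -/
noncomputable def AA (w : ℕ → ℤ) (n : ℕ) : ℝ := ∑ m ∈ range n, (w m : ℝ) * (1 / 2) ^ tt (m + 1)

theorem AA_succ (w : ℕ → ℤ) (n : ℕ) : AA w (n + 1) = AA w n + (w n : ℝ) * (1 / 2) ^ tt (n + 1) :=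
  Finset.sum_range_succ _ _

theorem exists_alpha (w : ℕ → ℤ) (hw0 : ∀ n, 0 ≤ w n) (hw1 : ∀ n, w n + 1 ≤ 2 ^ ell n) :
    ∃ α : ℝ, ∀ n, AA w n ≤ α ∧ α ≤ AA w n + (1 / 2) ^ tt n := by
  have hw1' : ∀ n, (w n : ℝ) + 1 ≤ 2 ^ ell n := fun n => by exact_mod_cast hw1 n
  have hpow : ∀ n, (1 / 2 : ℝ) ^ tt n = 2 ^ ell n * (1 / 2) ^ tt (n + 1) := by
    intro n
    rw [tt_succ, pow_add, mul_comm ((1 / 2 : ℝ) ^ tt n), ← mul_assoc, ← mul_pow]
    norm_num
  have hmono : Monotone (AA w) := by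
    apply monotone_nat_of_le_succ
    intro n
    rw [AA_succ]
    have : (0 : ℝ) ≤ w n := by exact_mod_cast hw0 n
    have : (0 : ℝ) ≤ (w n : ℝ) * (1 / 2) ^ tt (n + 1) := by positivity
    linarith
  have hanti : Antitone (fun n => AA w n + (1 / 2 : ℝ) ^ tt n) := by
    apply antitone_nat_of_succ_le
    intro n
    rw [AA_succ, hpow n]
    have h1 := hw1' n
    have h2 : (0 : ℝ) < (1 / 2) ^ tt (n + 1) := by positivity
    nlinarith
  have hle : ∀ m n, AA w m ≤ AA w n + (1 / 2 : ℝ) ^ tt n := by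
    intro m n
    have h1 : AA w m ≤ AA w (max m n) := hmono (le_max_left _ _)
    have h2 : AA w (max m n) + (1 / 2 : ℝ) ^ tt (max m n) ≤ AA w n + (1 / 2 : ℝ) ^ tt n :=
      hanti (le_max_right _ _)
    have h3 : (0 : ℝ) < (1 / 2 : ℝ) ^ tt (max m n) := by positivity
    linarith
  have hbdd : BddAbove (Set.range (AA w)) := ⟨AA w 0 + (1 / 2 : ℝ) ^ tt 0, by
    rintro _ ⟨m, rfl⟩
    exact hle m 0⟩
  exact ⟨⨆ n, AA w n, fun n => ⟨le_ciSup hbdd n, ciSup_le (fun m => hle m n)⟩⟩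

theorem AA_int (w : ℕ → ℤ) (n : ℕ) : ∃ I : ℤ, (2 : ℝ) ^ tt n * AA w n = I := by
  refine ⟨∑ m ∈ range n, w m * 2 ^ (tt n - tt (m + 1)), ?_⟩
  push_cast
  unfold AA
  rw [Finset.mul_sum]
  refine Finset.sum_congr rfl (fun m hm => ?_)
  have hmn : tt (m + 1) ≤ tt n := tt_mono (Finset.mem_range.mp hm)
  have h3 : (2 : ℝ) ^ tt n = 2 ^ (tt n - tt (m + 1)) * 2 ^ tt (m + 1) := by
    rw [← pow_add]; congr 1; omega
  rw [h3]
  have h4 : (2 : ℝ) ^ tt (m + 1) * (1 / 2) ^ tt (m + 1) = 1 := by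
    rw [← mul_pow]; norm_num
  calc (2 : ℝ) ^ (tt n - tt (m + 1)) * 2 ^ tt (m + 1) * ((w m : ℝ) * (1 / 2) ^ tt (m + 1))
      = (w m : ℝ) * 2 ^ (tt n - tt (m + 1)) * (2 ^ tt (m + 1) * (1 / 2) ^ tt (m + 1)) := by ring
    _ = (w m : ℝ) * 2 ^ (tt n - tt (m + 1)) := by rw [h4, mul_one]

/-- the free digits of block `n` -/
noncomputable def uu (n : ℕ) (x : ℝ) : ℤ := ⌊(2 : ℝ) ^ FF (n + 1) * x⌋ - 2 ^ fd n * ⌊(2 : ℝ) ^ FF n * x⌋

theorem uu_bounds (n : ℕ) (x : ℝ) : 0 ≤ uu n x ∧ uu n x + 1 ≤ 2 ^ fd n := by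
  have h1 := Int.floor_le ((2 : ℝ) ^ FF n * x)
  have h2 := Int.lt_floor_add_one ((2 : ℝ) ^ FF n * x)
  have e : (2 : ℝ) ^ FF (n + 1) * x = 2 ^ fd n * (2 ^ FF n * x) := by
    rw [FF_succ, pow_add]; ring
  have hp : (0 : ℝ) < 2 ^ fd n := by positivity
  have h3 : 2 ^ fd n * ⌊(2 : ℝ) ^ FF n * x⌋ ≤ ⌊(2 : ℝ) ^ FF (n + 1) * x⌋ := by
    rw [Int.le_floor, e]
    push_cast
    exact mul_le_mul_of_nonneg_left h1 hp.le
  have h4 : ⌊(2 : ℝ) ^ FF (n + 1) * x⌋ < 2 ^ fd n * ⌊(2 : ℝ) ^ FF n * x⌋ + 2 ^ fd n := by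
    rw [Int.floor_lt, e]
    push_cast
    nlinarith
  unfold uu
  constructor
  · linarith
  · linarith

/-- the block -/
noncomputable def ww (v : ℕ → ℝ) (n : ℕ) (x : ℝ) : ℤ :=
  ⌊(2 : ℝ) ^ gd n * Int.fract (v n)⌋ * 2 ^ (fd n + 1) + 2 * uu n x

theorem ww_bounds (v : ℕ → ℝ) (n : ℕ) (x : ℝ) : 0 ≤ ww v n x ∧ ww v n x + 1 ≤ 2 ^ ell n := by
  obtain ⟨h1, h2⟩ := uu_bounds n x
  have h3 : 0 ≤ ⌊(2 : ℝ) ^ gd n * Int.fract (v n)⌋ :=
    Int.floor_nonneg.mpr (mul_nonneg (by positivity) (Int.fract_nonneg _))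
  have h4 : ⌊(2 : ℝ) ^ gd n * Int.fract (v n)⌋ + 1 ≤ 2 ^ gd n := by
    have h5 : (2 : ℝ) ^ gd n * Int.fract (v n) < 2 ^ gd n := by
      have := Int.fract_lt_one (v n)
      have h6 : (0 : ℝ) < 2 ^ gd n := by positivity
      nlinarith
    have h7 : ⌊(2 : ℝ) ^ gd n * Int.fract (v n)⌋ < 2 ^ gd n := by
      rw [Int.floor_lt]
      push_cast
      exact h5
    exact h7
  have e : (2 : ℤ) ^ ell n = 2 ^ gd n * 2 ^ (fd n + 1) := by
    rw [← pow_add]
    congr 1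
    have := gd_fd n
    omega
  have hp : (0 : ℤ) < 2 ^ (fd n + 1) := by positivity
  have e2 : (2 : ℤ) ^ (fd n + 1) = 2 * 2 ^ fd n := by ring
  unfold ww
  constructor
  · have := mul_nonneg h3 hp.le
    linarith
  · rw [e]
    have h8 := mul_le_mul_of_nonneg_right h4 hp.le
    nlinarith

/-- the number with free digits `x` -/
noncomputable def GG' (v : ℕ → ℝ) (x : ℝ) : ℝ :=
  (exists_alpha (fun n => ww v n x) (fun n => (ww_bounds v n x).1)
    (fun n => (ww_bounds v n x).2)).choose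

theorem GG'_spec (v : ℕ → ℝ) (x : ℝ) (n : ℕ) : AA (fun n => ww v n x) n ≤ GG' v x ∧
    GG' v x ≤ AA (fun n => ww v n x) n + (1 / 2) ^ tt n :=
  (exists_alpha (fun n => ww v n x) (fun n => (ww_bounds v n x).1)
    (fun n => (ww_bounds v n x).2)).choose_spec n

theorem GG'_follows (v : ℕ → ℝ) (x : ℝ) (n : ℕ) :
    nd ((2 : ℝ) ^ tt n * GG' v x - v n) ≤ (1 / 2) ^ gd n := by
  set α := GG' v x with hα
  obtain ⟨h1, h2⟩ := GG'_spec v x (n + 1)
  rw [← hα] at h1 h2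
  obtain ⟨I, hI⟩ := AA_int (fun n => ww v n x) n
  have hT : (2 : ℝ) ^ tt n * (1 / 2) ^ tt (n + 1) = (1 / 2) ^ ell n := by
    rw [tt_succ, pow_add, ← mul_assoc, ← mul_pow]
    norm_num
  have hT0 : (0 : ℝ) < 2 ^ tt n := by positivity
  refine (nd_le _ (I - ⌊v n⌋)).trans ?_
  have h5 : (2 : ℝ) ^ tt n * α - v n - ((I - ⌊v n⌋ : ℤ) : ℝ) =
      2 ^ tt n * (α - AA (fun n => ww v n x) (n + 1)) +
        ((ww v n x : ℝ) * (1 / 2) ^ ell n - Int.fract (v n)) := by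
    have h6 : (2 : ℝ) ^ tt n * AA (fun n => ww v n x) (n + 1) =
        I + (ww v n x : ℝ) * (1 / 2) ^ ell n := by
      rw [AA_succ, mul_add, hI, ← hT]; ring
    rw [mul_sub, h6]
    push_cast
    have : v n - ⌊v n⌋ = Int.fract (v n) := Int.self_sub_floor _
    linarith
  rw [h5]
  have h6 : 0 ≤ 2 ^ tt n * (α - AA (fun n => ww v n x) (n + 1)) := mul_nonneg hT0.le (by linarith)
  have h7 : 2 ^ tt n * (α - AA (fun n => ww v n x) (n + 1)) ≤ (1 / 2) ^ ell n := by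
    rw [← hT]
    exact mul_le_mul_of_nonneg_left (by linarith) hT0.le
  have hfl1 := Int.floor_le ((2 : ℝ) ^ gd n * Int.fract (v n))
  have hfl2 := Int.lt_floor_add_one ((2 : ℝ) ^ gd n * Int.fract (v n))
  obtain ⟨hu1, hu2⟩ := uu_bounds n x
  have hu1' : (0 : ℝ) ≤ uu n x := by exact_mod_cast hu1
  have hu2' : (uu n x : ℝ) + 1 ≤ 2 ^ fd n := by exact_mod_cast hu2
  have hell : (1 / 2 : ℝ) ^ ell n = (1 / 2) ^ gd n * (1 / 2) ^ fd n * (1 / 2) := by
    rw [← pow_add, ← pow_succ, gd_fd]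
  have hff : (2 : ℝ) ^ fd n * (1 / 2) ^ fd n = 1 := by rw [← mul_pow]; norm_num
  have hgg : (2 : ℝ) ^ gd n * (1 / 2) ^ gd n = 1 := by rw [← mul_pow]; norm_num
  set a : ℝ := (1 / 2 : ℝ) ^ gd n with ha
  set b : ℝ := (1 / 2 : ℝ) ^ fd n with hb
  have ha0 : 0 < a := by positivity
  have hb0 : 0 < b := by positivity
  have h8 : (ww v n x : ℝ) * (1 / 2) ^ ell n =
      ⌊(2 : ℝ) ^ gd n * Int.fract (v n)⌋ * a + uu n x * b * a := by
    rw [hell, ww]
    push_cast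
    rw [pow_succ]
    linear_combination (⌊(2 : ℝ) ^ gd n * Int.fract (v n)⌋ * a : ℝ) * hff
  have h9 : (⌊(2 : ℝ) ^ gd n * Int.fract (v n)⌋ : ℝ) * a ≤ Int.fract (v n) := by
    have := mul_le_mul_of_nonneg_right hfl1 ha0.le
    have e : (2 : ℝ) ^ gd n * Int.fract (v n) * a = Int.fract (v n) := by
      linear_combination (Int.fract (v n)) * hgg
    rwa [e] at this
  have h10 : Int.fract (v n) ≤ (⌊(2 : ℝ) ^ gd n * Int.fract (v n)⌋ : ℝ) * a + a := by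
    have := mul_le_mul_of_nonneg_right hfl2.le ha0.le
    have e : (2 : ℝ) ^ gd n * Int.fract (v n) * a = Int.fract (v n) := by
      linear_combination (Int.fract (v n)) * hgg
    rw [e] at this
    linarith
  have h11 : (uu n x : ℝ) * b + b ≤ 1 := by
    have := mul_le_mul_of_nonneg_right hu2' hb0.le
    rw [hff] at this
    linarith
  have h12 : (uu n x : ℝ) * b * a + b * a ≤ a := by
    have := mul_le_mul_of_nonneg_right h11 ha0.le
    linarith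
  have h13 : 0 ≤ (uu n x : ℝ) * b * a := by positivity
  have h14 : 0 < b * a := by positivity
  rw [h8]
  rw [hell] at h7
  rw [abs_le]
  constructor
  · linarith
  · nlinarith

theorem GG'_mem (v : ℕ → ℝ) (x : ℝ) : GG' v x ∈ Foll v := by
  refine Eventually.of_forall fun n => (GG'_follows v x n).trans ?_
  rw [one_div_pow]
  apply one_div_le_one_div_of_le (by positivity)
  have h6 : n + 1 < 2 ^ (Nat.log 2 (n + 1) + 1) := Nat.lt_pow_succ_log_self (by norm_num) _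
  have h6R : (n : ℝ) + 1 ≤ 2 ^ (Nat.log 2 (n + 1) + 1) := by exact_mod_cast h6.le
  calc ((n : ℝ) + 1) ^ 8 ≤ (2 ^ (Nat.log 2 (n + 1) + 1)) ^ 8 :=
        pow_le_pow_left₀ (by positivity) h6R 8
    _ = 2 ^ (8 * (Nat.log 2 (n + 1) + 1)) := by rw [← pow_mul, mul_comm]
    _ ≤ 2 ^ gd n := pow_le_pow_right₀ (by norm_num) (by unfold gd; omega)

/-- separation -/
theorem sep (v : ℕ → ℝ) (x x' : ℝ) (n : ℕ) (h : ∀ i < n, ww v i x = ww v i x')
    (hn : ww v n x + 2 ≤ ww v n x') : (1 / 2 : ℝ) ^ tt (n + 1) ≤ GG' v x' - GG' v x := by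
  obtain ⟨h1, h2⟩ := GG'_spec v x (n + 1)
  obtain ⟨h3, h4⟩ := GG'_spec v x' (n + 1)
  have h5 : AA (fun n => ww v n x) n = AA (fun n => ww v n x') n := by
    unfold AA
    refine Finset.sum_congr rfl fun i hi => ?_
    have := h i (Finset.mem_range.1 hi)
    simp only [this]
  rw [AA_succ] at h2 h3
  rw [h5] at h2
  have h6 : (ww v n x : ℝ) + 2 ≤ ww v n x' := by exact_mod_cast hn
  have h7 : (0 : ℝ) < (1 / 2) ^ tt (n + 1) := by positivity
  nlinarith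

theorem FF_mono : Monotone FF := monotone_nat_of_le_succ fun n => by rw [FF_succ]; omega

/-- the first differing block -/
theorem anti_holder (v : ℕ → ℝ) (hF : ∀ m, ∃ n, m ≤ FF n) (x x' : ℝ) (hx : x ∈ Set.Ico (0 : ℝ) 1)
    (hx' : x' ∈ Set.Ico (0 : ℝ) 1) (hne : x ≠ x') :
    ∃ n, |x - x'| ≤ (1 / 2 : ℝ) ^ FF n ∧ (1 / 2 : ℝ) ^ tt (n + 1) ≤ |GG' v x - GG' v x'| := by
  classical
  have hex : ∃ n, ⌊(2 : ℝ) ^ FF (n + 1) * x⌋ ≠ ⌊(2 : ℝ) ^ FF (n + 1) * x'⌋ := by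
    by_contra hcon
    push Not at hcon
    have hpos : 0 < |x - x'| := abs_pos.2 (sub_ne_zero.2 hne)
    obtain ⟨m, hm⟩ := exists_pow_lt_of_lt_one hpos (by norm_num : (1 / 2 : ℝ) < 1)
    obtain ⟨n, hn⟩ := hF m
    have h1 : m ≤ FF (n + 1) := hn.trans (FF_mono (Nat.le_succ n))
    have h2 := Int.abs_sub_lt_one_of_floor_eq_floor (hcon n)
    rw [← mul_sub, abs_mul, abs_of_pos (by positivity : (0 : ℝ) < 2 ^ FF (n + 1))] at h2
    have h3 : (2 : ℝ) ^ m ≤ 2 ^ FF (n + 1) := pow_le_pow_right₀ (by norm_num) h1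
    have h4 : (1 : ℝ) < 2 ^ m * |x - x'| := by
      rw [one_div_pow, div_lt_iff₀ (by positivity)] at hm
      linarith
    have h5 := mul_le_mul_of_nonneg_right h3 hpos.le
    linarith
  set n := Nat.find hex with hn
  have hn1 : ⌊(2 : ℝ) ^ FF (n + 1) * x⌋ ≠ ⌊(2 : ℝ) ^ FF (n + 1) * x'⌋ := Nat.find_spec hex
  have hn2 : ∀ i ≤ n, ⌊(2 : ℝ) ^ FF i * x⌋ = ⌊(2 : ℝ) ^ FF i * x'⌋ := by
    intro i hi
    rcases Nat.eq_zero_or_pos i with h0 | h0
    · subst h0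
      have e : FF 0 = 0 := rfl
      rw [e, pow_zero, one_mul, one_mul, Int.floor_eq_zero_iff.2 hx, Int.floor_eq_zero_iff.2 hx']
    · obtain ⟨j, rfl⟩ : ∃ j, i = j + 1 := ⟨i - 1, by omega⟩
      by_contra hcon
      exact Nat.find_min hex (show j < Nat.find hex by omega) hcon
  refine ⟨n, ?_, ?_⟩
  · have h2 := Int.abs_sub_lt_one_of_floor_eq_floor (hn2 n le_rfl)
    rw [← mul_sub, abs_mul, abs_of_pos (by positivity : (0 : ℝ) < 2 ^ FF n)] at h2
    rw [one_div_pow, le_div_iff₀ (by positivity)]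
    linarith
  · have hu : ∀ i < n, ww v i x = ww v i x' := by
      intro i hi
      unfold ww uu
      rw [hn2 i hi.le, hn2 (i + 1) hi]
    have hun : uu n x ≠ uu n x' := by
      unfold uu
      rw [hn2 n le_rfl]
      intro hcon
      apply hn1
      linarith
    rcases lt_or_gt_of_ne hun with h | h
    · have h3 : ww v n x + 2 ≤ ww v n x' := by
        unfold ww
        linarith [Int.add_one_le_iff.2 h]
      have := sep v x x' n hu h3
      rw [abs_sub_comm]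
      exact this.trans (le_abs_self _)
    · have h3 : ww v n x' + 2 ≤ ww v n x := by
        unfold ww
        linarith [Int.add_one_le_iff.2 h]
      have := sep v x' x n (fun i hi => (hu i hi).symm) h3
      exact this.trans (le_abs_self _)

end Pool.Agent.Y471.PPC
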