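import Pool.Agent.Results.MP_b61c36_nt.PPCCounterexample

/-!
# Poissonian pair correlations of `a_n α` for all `α` with prescribed digits

For the integer sequence `aseq` of `MP_b61c36_nt.PPCCounterexample` the sequence `a_n α` has
Poissonian pair correlations as soon as `2^{t_n} α` is eventually within `(n+1)^{-8}` of the targets.
-/

set_option autoImplicit false
set_option maxHeartbeats 400000

namespace Pool.Agent.Y471.PPC

open Filter Topology Finset
open Pool.Agent.Results.MP_b61c36_nt.PPCCounterexample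

/-- the targets -/
noncomputable def vy (y : ℕ → ℝ) (n : ℕ) : ℝ :=
  if comb n then 1 / (nn (kk n) : ℝ) else y (rho n)

/-- the numbers which follow the targets -/
def Foll (v : ℕ → ℝ) : Set ℝ :=
  {α | ∀ᶠ n : ℕ in atTop, nd ((2 : ℝ) ^ tt n * α - v n) ≤ 1 / ((n : ℝ) + 1) ^ 8}

theorem comb_sep (k : ℕ) (β : ℝ) (hβ : nd (β - 1 / (nn k : ℝ)) ≤ 1 / (2 * (nn k : ℝ) ^ 2))
    (i i' : ℕ) (hi : i < nn k) (hi' : i' < nn k) (hne : i ≠ i') :
    1 / (2 * (nn k : ℝ)) ≤ nd (((i : ℝ) + 1) * β - ((i' : ℝ) + 1) * β) := by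
  wlog h : i' < i generalizing i i'
  · rw [nd_sub_comm]
    exact this i' i hi' hi hne.symm (by omega)
  have hn0 : (0 : ℝ) < nn k := by exact_mod_cast nn_pos k
  obtain ⟨d, hd⟩ := Nat.exists_eq_add_of_lt h
  have hd1 : (((i : ℝ) + 1) * β - ((i' : ℝ) + 1) * β) = ((d + 1 : ℕ) : ℝ) * β := by
    rw [hd]; push_cast; ring
  rw [hd1]
  have h1 : 1 / ((nn k : ℤ) : ℝ) ≤ nd ((((d + 1 : ℕ) : ℤ) : ℝ) / ((nn k : ℤ) : ℝ)) := by
    apply nd_div_lower _ _ (by exact_mod_cast nn_pos k)
    intro hdvd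
    have := Int.le_of_dvd (by positivity) hdvd
    omega
  push_cast at h1
  have h2 := nd_add_le (((d + 1 : ℕ) : ℝ) * β) (-(((d + 1 : ℕ) : ℝ) * (β - 1 / (nn k : ℝ))))
  have h3 : ((d + 1 : ℕ) : ℝ) * β + -(((d + 1 : ℕ) : ℝ) * (β - 1 / (nn k : ℝ))) =
      ((d : ℝ) + 1) / nn k := by push_cast; ring
  rw [h3, nd_neg] at h2
  have h4 := nd_nat_mul (d + 1) (β - 1 / (nn k : ℝ))
  have h5 : ((d + 1 : ℕ) : ℝ) * nd (β - 1 / (nn k : ℝ)) ≤
      (nn k : ℝ) * (1 / (2 * (nn k : ℝ) ^ 2)) := by
    apply mul_le_mul _ hβ (nd_nonneg _) hn0.le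
    exact_mod_cast (by omega : d + 1 ≤ nn k)
  have h6 : (nn k : ℝ) * (1 / (2 * (nn k : ℝ) ^ 2)) = 1 / (2 * (nn k : ℝ)) := by
    field_simp
  have h7 : 1 / (nn k : ℝ) = 1 / (2 * (nn k : ℝ)) + 1 / (2 * (nn k : ℝ)) := by
    field_simp; norm_num
  linarith

/-- threshold -/
def SS (n0 N : ℕ) : ℕ := RR N + n0

theorem SS_lim (n0 : ℕ) : Tendsto (fun N : ℕ => (SS n0 N : ℝ) ^ 2 / N) atTop (𝓝 0) := by
  have h0 : Tendsto (fun N : ℕ => ((n0 : ℝ) ^ 2) / (N : ℝ)) atTop (𝓝 0) :=
    tendsto_const_div_atTop_nhds_zero_nat _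
  have h1 := (RR_lim.const_mul (2 : ℝ)).add (h0.const_mul (2 : ℝ))
  rw [mul_zero, add_zero] at h1
  refine squeeze_zero' (Eventually.of_forall (fun N => by positivity)) ?_ h1
  filter_upwards [eventually_ge_atTop 2] with N hN
  have hNR : (0 : ℝ) < N := by positivity
  rw [mul_div_assoc', mul_div_assoc', ← add_div]
  apply div_le_div_of_nonneg_right _ hNR.le
  unfold SS
  push_cast
  nlinarith [sq_nonneg ((RR N : ℝ) - n0)]

/-- old combs and small indices -/
def E2 (n0 N : ℕ) : Finset ℕ :=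
  (range N).filter (fun n => (comb n ∧ n < NN (kk N)) ∨ n < SS n0 N)

theorem E2_card (n0 N : ℕ) (hN : 2 ≤ N) : (E2 n0 N).card ≤ RR N + SS n0 N := by
  classical
  have h1 : E2 n0 N ⊆ range (RR N) ∪ range (SS n0 N) := by
    intro n hn
    unfold E2 at hn
    rw [Finset.mem_filter, mem_range] at hn
    rw [Finset.mem_union, mem_range, mem_range]
    rcases hn.2 with ⟨h2, h3⟩ | h2
    · left
      obtain ⟨k, i, hi, hk⟩ := (comb_iff n).mp h2
      have h4 : k + 1 ≤ kk N := by
        by_contra h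
        push Not at h
        have h5 : NN (kk N) ≤ NN k := by
          unfold NN
          exact Nat.pow_le_pow_right (by norm_num) (Nat.pow_le_pow_right (by norm_num) (by omega))
        omega
      have h5 : n < 2 * NN k := by
        have := nn_le_NN k
        omega
      have h6 : NN (k + 1) ≤ N := by
        refine le_trans ?_ (NN_kk_le N hN)
        unfold NN
        exact Nat.pow_le_pow_right (by norm_num) (Nat.pow_le_pow_right (by norm_num) h4)
      have h7 : n ^ 4 ≤ 16 * N := by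
        calc n ^ 4 ≤ (2 * NN k) ^ 4 := Nat.pow_le_pow_left h5.le 4
          _ = 16 * NN (k + 1) := by rw [NN_succ]; ring
          _ ≤ 16 * N := Nat.mul_le_mul_left _ h6
      have h8 : n ^ 2 ≤ Nat.sqrt (16 * N) := by
        rw [Nat.le_sqrt']
        calc (n ^ 2) ^ 2 = n ^ 4 := by ring
          _ ≤ 16 * N := h7
      have h9 : n ≤ Nat.sqrt (Nat.sqrt (16 * N)) := by
        rw [Nat.le_sqrt']
        exact h8
      unfold RR
      omega
    · right
      exact h2
  refine (Finset.card_le_card h1).trans ((Finset.card_union_le _ _).trans ?_)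
  rw [card_range, card_range]

theorem E2_lim (n0 : ℕ) : Tendsto (fun N : ℕ => ((E2 n0 N).card : ℝ) ^ 2 / N) atTop (𝓝 0) := by
  have h1 := (RR_lim.const_mul (2 : ℝ)).add ((SS_lim n0).const_mul (2 : ℝ))
  rw [mul_zero, add_zero] at h1
  refine squeeze_zero' (Eventually.of_forall (fun N => by positivity)) ?_ h1
  filter_upwards [eventually_ge_atTop 2] with N hN
  have hNR : (0 : ℝ) < N := by positivity
  have h2 : ((E2 n0 N).card : ℝ) ≤ RR N + SS n0 N := by exact_mod_cast E2_card n0 N hN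
  have h3 : (0 : ℝ) ≤ (E2 n0 N).card := Nat.cast_nonneg _
  rw [mul_div_assoc', mul_div_assoc', ← add_div]
  apply div_le_div_of_nonneg_right _ hNR.le
  have h4 : ((E2 n0 N).card : ℝ) ^ 2 ≤ ((RR N : ℝ) + SS n0 N) ^ 2 := pow_le_pow_left₀ h3 h2 2
  nlinarith [sq_nonneg ((RR N : ℝ) - SS n0 N)]

theorem le_RR_pow (N : ℕ) : N ≤ RR N ^ 4 := by
  have h1 : Nat.sqrt (16 * N) < (Nat.sqrt (Nat.sqrt (16 * N)) + 1) ^ 2 := Nat.lt_succ_sqrt' _
  have h2 : 16 * N < (Nat.sqrt (16 * N) + 1) ^ 2 := Nat.lt_succ_sqrt' _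
  have h3 : Nat.sqrt (16 * N) + 1 ≤ RR N ^ 2 := h1
  calc N ≤ 16 * N := by omega
    _ ≤ (Nat.sqrt (16 * N) + 1) ^ 2 := h2.le
    _ ≤ (RR N ^ 2) ^ 2 := Nat.pow_le_pow_left h3 2
    _ = RR N ^ 4 := by ring

theorem ppc_of_foll {y : ℕ → ℝ} (hy : PPC y) {α : ℝ} (hα : α ∈ Foll (vy y)) :
    PPC (fun n => (aseq n : ℝ) * α) := by
  classical
  obtain ⟨n0, hn0⟩ := eventually_atTop.1 hα
  set z : ℕ → ℝ := fun n => (aseq n : ℝ) * α with hz
  refine ppc_compare z y hy rho (fun N => (range N).filter (fun n => ¬ comb n ∧ SS n0 N ≤ n))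
    (fun N => (range N).filter (fun n => comb n ∨ n < SS n0 N)) (fun N => range (SS n0 N))
    (fun N => Nat.count (fun n => ¬ comb n) N) (fun N => 1 / (N : ℝ) ^ 2) ?_ ?_ ?_ ?_ ?_ ?_ ?_
    M_lim ?_ ?_
  · -- C ∪ D
    intro N
    ext n
    simp only [Finset.mem_union, Finset.mem_filter]
    constructor
    · rintro (h | h)
      · exact h.1
      · exact h.1
    · intro h
      by_cases h1 : comb n
      · right; exact ⟨h, Or.inl h1⟩
      · rcases lt_or_ge n (SS n0 N) with h2 | h2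
        · right; exact ⟨h, Or.inr h2⟩
        · left; exact ⟨h, h1, h2⟩
  · intro N n hn m hm h
    rw [Finset.mem_coe, Finset.mem_filter] at hn hm
    exact Nat.count_injective hn.2.1 hm.2.1 h
  · intro N
    have := count_not N
    show Nat.count (fun n => ¬ comb n) N ≤ N
    omega
  · intro N m hm
    rw [Finset.mem_image] at hm
    obtain ⟨n, hn, rfl⟩ := hm
    rw [Finset.mem_filter, mem_range] at hn
    rw [mem_range]
    exact Nat.count_strict_mono hn.2.1 hn.1
  · intro N m hm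
    rw [mem_range] at hm
    obtain ⟨n, h1, h2, h3⟩ := count_surj _ N m hm
    rw [Finset.mem_union]
    rcases lt_or_ge n (SS n0 N) with h4 | h4
    · right
      rw [mem_range, ← h3]
      have : Nat.count (fun n => ¬ comb n) n ≤ n := by
        have := count_not n
        omega
      omega
    · left
      rw [Finset.mem_image]
      refine ⟨n, ?_, h3⟩
      rw [Finset.mem_filter, mem_range]
      exact ⟨h1, h2, h4⟩
  · intro N n hn
    rw [Finset.mem_filter, mem_range] at hn
    obtain ⟨h1, h2, h3⟩ := hn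
    unfold SS at h3
    have h4 := hn0 n (by omega)
    rw [vy, if_neg h2] at h4
    have h5 : z n = (2 : ℝ) ^ tt n * α := by
      rw [hz]
      simp only [aseq_not_comb n h2]
      push_cast
      ring
    rw [h5]
    refine h4.trans ?_
    have hNR : (0 : ℝ) < N := by
      have : 0 < N := by omega
      exact_mod_cast this
    have h6 : N ≤ (n + 1) ^ 4 :=
      (le_RR_pow N).trans (Nat.pow_le_pow_left (by omega) 4)
    have h6R : (N : ℝ) ≤ ((n : ℝ) + 1) ^ 4 := by exact_mod_cast h6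
    apply one_div_le_one_div_of_le (by positivity)
    calc (N : ℝ) ^ 2 ≤ (((n : ℝ) + 1) ^ 4) ^ 2 := pow_le_pow_left₀ hNR.le h6R 2
      _ = ((n : ℝ) + 1) ^ 8 := by ring
  · -- N * e N → 0
    refine (tendsto_one_div_atTop_nhds_zero_nat (𝕜 := ℝ)).congr' ?_
    filter_upwards [eventually_ge_atTop 1] with N hN
    have hNR : (0 : ℝ) < N := by exact_mod_cast hN
    field_simp
  · -- pairs in D
    intro s hs
    have h1 := (nn_lim.add (E2_lim n0)).const_mul (6 : ℝ)
    rw [add_zero, mul_zero] at h1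
    refine squeeze_zero' (Eventually.of_forall (fun N => by positivity)) ?_ h1
    have hs1 : ∀ᶠ N : ℕ in atTop, s / (N : ℝ) ≤ 1 := by
      have h1 : Tendsto (fun N : ℕ => s / (N : ℝ)) atTop (𝓝 0) :=
        tendsto_const_div_atTop_nhds_zero_nat s
      exact (h1.eventually (gt_mem_nhds one_pos)).mono (fun N h => h.le)
    have hs2 : ∀ᶠ N : ℕ in atTop, 2 * s ≤ 2 ^ kap (kk N) := by
      have h1 : Tendsto (fun N : ℕ => (2 : ℝ) ^ kap (kk N)) atTop atTop :=
        (tendsto_pow_atTop_atTop_of_one_lt (by norm_num : (1 : ℝ) < 2)).comp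
          (kap_tendsto.comp kk_tendsto)
      exact h1.eventually (eventually_ge_atTop _)
    have hs3 : ∀ᶠ N : ℕ in atTop, n0 ≤ kk N := kk_tendsto.eventually (eventually_ge_atTop n0)
    filter_upwards [eventually_ge_atTop 2, hs1, hs2, hs3] with N hN hsN hsk hs3
    have hNR : (0 : ℝ) < N := by positivity
    have hδ0 : 0 < s / N := div_pos hs hNR
    rw [← add_div, mul_div_assoc']
    apply div_le_div_of_nonneg_right _ hNR.le
    have h2 : (range N).filter (fun n => comb n ∨ n < SS n0 N) = D1 N ∪ E2 n0 N := by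
      ext n
      unfold D1 E2
      simp only [Finset.mem_union, Finset.mem_filter]
      constructor
      · rintro ⟨h3, h4 | h4⟩
        · rcases le_or_gt (NN (kk N)) n with h | h
          · left; exact ⟨h3, h4, h⟩
          · right; exact ⟨h3, Or.inl ⟨h4, h⟩⟩
        · right; exact ⟨h3, Or.inr h4⟩
      · rintro (⟨h3, h4, _⟩ | ⟨h3, ⟨h4, _⟩ | h4⟩)
        · exact ⟨h3, Or.inl h4⟩
        · exact ⟨h3, Or.inl h4⟩
        · exact ⟨h3, Or.inr h4⟩
    rw [h2]
    have h3 := Q_union_le6 z (D1 N) (E2 n0 N) _ hδ0 hsN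
    have h4 : Q z (D1 N) (D1 N) (s / N) = (D1 N).card := by
      rw [Q_self _ _ _ hδ0]
      have : offA z (D1 N) (s / N) = 0 := by
        unfold offA
        rw [Finset.card_eq_zero, Finset.filter_eq_empty_iff]
        intro p hp
        rw [Finset.mem_offDiag] at hp
        obtain ⟨hp1, hp2, hp3⟩ := hp
        obtain ⟨i, hi, hpi⟩ := D1_sub N _ hp1
        obtain ⟨i', hi', hpi'⟩ := D1_sub N _ hp2
        rw [not_lt]
        set k := kk N with hk
        have hkN : k ≤ NN k := by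
          unfold NN
          calc k ≤ 4 ^ k := (Nat.lt_pow_self (by norm_num)).le
            _ ≤ 2 ^ (4 ^ k) := (Nat.lt_pow_self (by norm_num)).le
        have h5 := hn0 (NN k) (hs3.trans hkN)
        have h6 : comb (NN k) := comb_mem k 0 (nn_pos k)
        have h7 : kk (NN k) = k := kk_comb k 0 (nn_pos k)
        rw [vy, if_pos h6, h7] at h5
        have h12 : (0 : ℝ) < nn k := by exact_mod_cast nn_pos k
        have h5' : nd ((2 : ℝ) ^ tt (NN k) * α - 1 / (nn k : ℝ)) ≤ 1 / (2 * (nn k : ℝ) ^ 2) := by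
          refine h5.trans ?_
          apply one_div_le_one_div_of_le (by positivity)
          have a1 : (nn k : ℝ) ≤ NN k := by exact_mod_cast nn_le_NN k
          have a2 : (2 : ℝ) ≤ NN k := by exact_mod_cast two_le_NN k
          calc 2 * (nn k : ℝ) ^ 2 ≤ NN k * (NN k : ℝ) ^ 2 := by
                apply mul_le_mul a2 (pow_le_pow_left₀ h12.le a1 2) (by positivity) (by positivity)
            _ = (NN k : ℝ) ^ 3 := by ring
            _ ≤ (NN k : ℝ) ^ 8 := pow_le_pow_right₀ (by linarith) (by norm_num)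
            _ ≤ ((NN k : ℝ) + 1) ^ 8 := pow_le_pow_left₀ (by positivity) (by linarith) 8
        have h8 : z p.1 = ((i : ℝ) + 1) * ((2 : ℝ) ^ tt (NN k) * α) := by
          rw [hz, hpi]
          simp only [aseq_comb k i hi]
          push_cast
          ring
        have h9 : z p.2 = ((i' : ℝ) + 1) * ((2 : ℝ) ^ tt (NN k) * α) := by
          rw [hz, hpi']
          simp only [aseq_comb k i' hi']
          push_cast
          ring
        rw [h8, h9]
        refine le_trans ?_ (comb_sep k _ h5' i i' hi hi' (fun h => hp3 (by rw [hpi, hpi', h])))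
        have h10 : (NN k : ℝ) ≤ N := by exact_mod_cast NN_kk_le N hN
        have h11 : (NN k : ℝ) = nn k * 2 ^ kap k := by
          rw [NN_eq]; push_cast; ring
        rw [div_le_div_iff₀ hNR (by positivity)]
        rw [h11] at h10
        nlinarith
      omega
    have h5 := D1_card N
    have h6 := Q_le_card_sq z (E2 n0 N) (s / N)
    have h7 : Q z (D1 N ∪ E2 n0 N) (D1 N ∪ E2 n0 N) (s / N) ≤
        6 * (nn (kk N) + (E2 n0 N).card ^ 2) := by
      rw [h4] at h3
      omega
    exact_mod_cast h7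
  · -- D'
    simp only [card_range]
    exact SS_lim n0

end Pool.Agent.Y471.PPC
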